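import Pool.Agent.X32.Uni.Eqn2

/-!
# The equation `a p - b q = c` with `p` prime and `|q| = P₂`, uniformly in `c`, with narrow progressions of the `p`

For every `E` there is `κ > 0` such that for all `K, k`, `θ, δ > 0` there is `C` such that for all large `X`, ALL
`1 ≤ a, b ≤ E` and ALL `0 < |c| ≤ K X` with `a, b, c` pairwise relatively prime and not all odd, and all intervals
`(A, B]` with `B ≤ X`, `B - A ≥ θ X`: at least `κ (B - A) W` primes `p` of `(A, B]` are such that `a p - b q = c` with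
`|q|` a prime or a product of two primes, all larger than `X ^ (1 / 9)`, where `W = ∏_{l ≤ X} (1 - w(l) / l)` is the
product of the local densities; and every set of such primes `p` with at least `δ (B - A) W` elements contains `k`
terms of an arithmetic progression with difference `≤ (log X) ^ C`.
-/

set_option autoImplicit false

namespace Pool.Agent.Results.MP_bf63dc_nt.ChenProgressions

open Finset

/-- the local densities of the equation -/
def w (a b : ℕ) (c : ℤ) (l : ℕ) : ℕ := if (l : ℤ) ∣ a * b * c then 1 else 2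

/-- the product of `1 - w(l) / l` over the primes `l ≤ X` -/
noncomputable def W (a b : ℕ) (c : ℤ) (X : ℕ) : ℝ :=
  ∏ l ∈ (Icc 1 X).filter Nat.Prime, (1 - (w a b c l : ℝ) / l)

/-- `|v| > 1`, and `|v|` is a product of at most `r` primes, all of them larger than `y` -/
def Almost (r : ℕ) (y : ℝ) (v : ℤ) : Prop :=
  1 < |v| ∧ v.natAbs.primeFactorsList.length ≤ r ∧ ∀ q : ℕ, q.Prime → (q : ℤ) ∣ v → y < q

open Classical in
/-- the primes `p` of `(A, B]` such that `a p - b q = c` for an integer `q` for which `|q|` is a product of at most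
two primes, all larger than `X ^ (1 / 9)` -/
noncomputable def G (a b : ℕ) (c : ℤ) (X A B : ℕ) : Finset ℕ :=
  (Ioc A B).filter (fun p : ℕ => p.Prime ∧ ∃ q : ℤ, (a : ℤ) * p - b * q = c ∧ Almost 2 ((X : ℝ) ^ (1 / 9 : ℝ)) q)

theorem result : ∀ E : ℕ, ∃ κ : ℝ, 0 < κ ∧ ∀ (K k : ℕ) (θ δ : ℝ), 0 < θ → 0 < δ → ∃ C X₀ : ℕ, ∀ X : ℕ, X₀ ≤ X →
    ∀ a b : ℕ, 1 ≤ a → a ≤ E → 1 ≤ b → b ≤ E → ∀ c : ℤ, c ≠ 0 → |c| ≤ K * (X : ℤ) →
      IsCoprime (a : ℤ) b → IsCoprime (a : ℤ) c → IsCoprime (b : ℤ) c → ¬ (Odd a ∧ Odd b ∧ Odd c) →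
      κ / Real.log X ^ 2 ≤ W a b c X ∧
      ∀ A B : ℕ, B ≤ X → θ * X ≤ (B : ℝ) - A →
        κ * ((B : ℝ) - A) * W a b c X ≤ ((G a b c X A B).card : ℝ) ∧
        ∀ S : Finset ℕ, S ⊆ G a b c X A B → δ * ((B : ℝ) - A) * W a b c X ≤ S.card →
          ∃ p d : ℕ, 1 ≤ d ∧ (d : ℝ) ≤ Real.log X ^ C ∧ ∀ l < k, p + l * d ∈ S := by
  intro E
  obtain ⟨κ, hκ, H⟩ := Pool.Agent.X32.Uni.eqnU E
  refine ⟨κ, hκ, fun K k θ δ hθ hδ => ?_⟩
  obtain ⟨⟨X₁, h1⟩, h2⟩ := H θ hθ K
  obtain ⟨C, X₂, h3⟩ := h2 k δ hδ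
  refine ⟨C, max X₁ X₂, fun X hX a b ha haE hb hbE c h0 hK hab hac hbc hodd => ?_⟩
  have hpar : 2 ∣ (a : ℤ) * b * c := by
    by_contra hcon
    apply hodd
    have h4 : Odd ((a : ℤ) * b * c) := by
      rw [← Int.not_even_iff_odd, even_iff_two_dvd]
      exact hcon
    rw [Int.odd_mul, Int.odd_mul] at h4
    exact ⟨by exact_mod_cast h4.1.1, by exact_mod_cast h4.1.2, h4.2⟩
  have HC : Pool.Agent.X32.Uni.CE E K X a b c :=
    { a1 := ha, b1 := hb, aE := haE, bE := hbE, c0 := h0, cK := hK, ab := hab, ac := hac, bc := hbc, par := hpar }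
  obtain ⟨h4, h5⟩ := h1 X ((le_max_left _ _).trans hX) a b c HC
  exact ⟨h4, fun A B hB hAB => ⟨h5 A B hB hAB, h3 X ((le_max_right _ _).trans hX) a b c HC A B hB hAB⟩⟩

end Pool.Agent.Results.MP_bf63dc_nt.ChenProgressions
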