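import Mathlib
import Pool.Agent.X34.E.E17
import Pool.Agent.X34.E.E4

/-!
# One of the first 106 iterates of the equation `a p - b q = c`

Let `(a, b, c)` be a triple of the question. Iterating the map `q ↦ p = (b q + c) / a` one obtains the equations
`a ^ j p - b ^ j q = c (a ^ (j-1) + a ^ (j-2) b + ... + b ^ (j-1))`. For all large `x` one of the first 106 of
them has solutions in primes for at least `c' x / (log x) ^ 45` primes `q ≤ x`, and one of the first 106 of them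
has solutions for the primes `q` of arbitrarily long narrow arithmetic progressions. If no prime
`3 ≤ l ≤ 43` divides `a - b` without dividing `c`, 44 iterates suffice.
-/

set_option autoImplicit false

open Finset Filter

namespace Pool.Agent.Results.MP_bf63dc_nt.Iterates106

/-- `q` is a prime for which the `j`-th iterate `a ^ j p - b ^ j q = c (a ^ (j-1) + ... + b ^ (j-1))` of the
equation `a p - b q = c` has a solution in primes -/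
def Sol (a b : ℕ) (c : ℤ) (j q : ℕ) : Prop :=
  q.Prime ∧ ∃ p : ℕ, p.Prime ∧
    (a : ℤ) ^ j * p - (b : ℤ) ^ j * q = c * ∑ i ∈ range j, (a : ℤ) ^ i * (b : ℤ) ^ (j - 1 - i)

/-- at least `κ x / (log x) ^ 45` primes `q ≤ x` have `Sol a b c j q` -/
def Many (a b : ℕ) (c : ℤ) (j : ℕ) (κ x : ℝ) : Prop :=
  κ * x / Real.log x ^ 45 ≤ (Set.ncard {q : ℕ | (q : ℝ) ≤ x ∧ Sol a b c j q} : ℝ)

/-- For every `l` there is `C` such that for infinitely many `N` there is `1 ≤ D ≤ (log N) ^ C` such that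
for at least `N / (log N) ^ C` integers `1 ≤ q ≤ N` all terms of the progression
`q, q + D, ..., q + (l - 1) D` have `Sol a b c j`. -/
def Narrow (a b : ℕ) (c : ℤ) (j : ℕ) : Prop :=
  ∀ l : ℕ, ∃ C : ℕ, ∃ᶠ N : ℕ in atTop, ∃ D : ℕ, 1 ≤ D ∧ (D : ℝ) ≤ Real.log N ^ C ∧
    (N : ℝ) / Real.log N ^ C ≤
      (Set.ncard {q : ℕ | 1 ≤ q ∧ q ≤ N ∧ ∀ t < l, Sol a b c j (q + t * D)} : ℝ)

theorem narrow_of {a b : ℕ} {c : ℤ} {j : ℕ} (h : Pool.Agent.X34.E.Nar (Sol a b c j)) : Narrow a b c j := by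
  classical
  intro l
  obtain ⟨C, hC⟩ := h l
  refine ⟨C, hC.mono ?_⟩
  rintro N ⟨D, hd1, hd2, hd3⟩
  refine ⟨D, hd1, hd2, hd3.trans ?_⟩
  rw [← Set.ncard_coe_finset, Nat.cast_le]
  apply Set.ncard_le_ncard
  · intro n hn
    rw [mem_coe, mem_filter, mem_Icc] at hn
    exact ⟨hn.1.1, hn.1.2, hn.2⟩
  · exact (Set.finite_Iic N).subset fun n hn => hn.2.1

/-- Let `a, b ≥ 1` and `c ≠ 0` be pairwise coprime and not all odd. (1) For every set `G` of 45 natural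
numbers which misses a class modulo every prime `3 ≤ p ≤ 43` with `p ∣ a - b`, `p ∤ c`: there is `κ > 0`
such that for all large `x` there are `g < g'` in `G` with `Many a b c (g' - g) κ x`, and there are
`g < g'` in `G` with `Narrow a b c (g' - g)`. (2) The same with one of the exponents `j ≤ 106`. (3) The same
with one of the exponents `j ≤ 44`, if every prime `3 ≤ p ≤ 43` which divides `a - b` divides `c`. -/
theorem result (a b : ℕ) (c : ℤ) (ha : 0 < a) (hb : 0 < b) (hc : c ≠ 0) (hab : a.Coprime b)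
    (hac : IsCoprime (a : ℤ) c) (hbc : IsCoprime (b : ℤ) c) (hpar : ¬ (Odd a ∧ Odd b ∧ Odd c)) :
    (∀ G : Finset ℕ, G.card = 45 → (∀ p : ℕ, p.Prime → 3 ≤ p → p ≤ 43 → (p : ℤ) ∣ (a : ℤ) - b →
        ¬ (p : ℤ) ∣ c → ∃ r : ℕ, ∀ g ∈ G, ¬ g ≡ r [MOD p]) →
      (∃ κ : ℝ, 0 < κ ∧ ∀ᶠ x : ℝ in atTop, ∃ g ∈ G, ∃ g' ∈ G, g < g' ∧ Many a b c (g' - g) κ x) ∧
        ∃ g ∈ G, ∃ g' ∈ G, g < g' ∧ Narrow a b c (g' - g)) ∧
    ((∃ κ : ℝ, 0 < κ ∧ ∀ᶠ x : ℝ in atTop, ∃ j : ℕ, 1 ≤ j ∧ j ≤ 106 ∧ Many a b c j κ x) ∧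
      ∃ j : ℕ, 1 ≤ j ∧ j ≤ 106 ∧ Narrow a b c j) ∧
    ((∀ p : ℕ, p.Prime → 3 ≤ p → p ≤ 43 → (p : ℤ) ∣ (a : ℤ) - b → (p : ℤ) ∣ c) →
      (∃ κ : ℝ, 0 < κ ∧ ∀ᶠ x : ℝ in atTop, ∃ j : ℕ, 1 ≤ j ∧ j ≤ 44 ∧ Many a b c j κ x) ∧
      ∃ j : ℕ, 1 ≤ j ∧ j ≤ 44 ∧ Narrow a b c j) := by
  classical
  have gen : ∀ G : Finset ℕ, G.card = 45 → (∀ p : ℕ, p.Prime → 3 ≤ p → p ≤ 43 → (p : ℤ) ∣ (a : ℤ) - b →
        ¬ (p : ℤ) ∣ c → ∃ r : ℕ, ∀ g ∈ G, ¬ g ≡ r [MOD p]) →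
      (∃ κ : ℝ, 0 < κ ∧ ∀ᶠ x : ℝ in atTop, ∃ g ∈ G, ∃ g' ∈ G, g < g' ∧ Many a b c (g' - g) κ x) ∧
        ∃ g ∈ G, ∃ g' ∈ G, g < g' ∧ Narrow a b c (g' - g) := by
    intro G hG hloc
    obtain ⟨⟨g, hg, g', hg', hlt, h1⟩, κ, hκ, h2⟩ := Pool.Agent.X34.E.chain_main
      Pool.Agent.X34.E.dhl45R a b c ha hb hc hab hac hbc hpar G hG hloc
    refine ⟨⟨κ, hκ, h2⟩, g, hg, g', hg', hlt, narrow_of h1⟩
  have upto : ∀ (L : ℕ) (G : Finset ℕ), (∀ g ∈ G, g ≤ L) →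
      ((∃ κ : ℝ, 0 < κ ∧ ∀ᶠ x : ℝ in atTop, ∃ g ∈ G, ∃ g' ∈ G, g < g' ∧ Many a b c (g' - g) κ x) ∧
        ∃ g ∈ G, ∃ g' ∈ G, g < g' ∧ Narrow a b c (g' - g)) →
      (∃ κ : ℝ, 0 < κ ∧ ∀ᶠ x : ℝ in atTop, ∃ j : ℕ, 1 ≤ j ∧ j ≤ L ∧ Many a b c j κ x) ∧
        ∃ j : ℕ, 1 ≤ j ∧ j ≤ L ∧ Narrow a b c j := by
    rintro L G hL ⟨⟨κ, hκ, h1⟩, g, hg, g', hg', hlt, h2⟩
    refine ⟨⟨κ, hκ, ?_⟩, g' - g, by omega, by have := hL g' hg'; omega, h2⟩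
    filter_upwards [h1] with x hx
    obtain ⟨g, hg, g', hg', hlt, hx⟩ := hx
    exact ⟨g' - g, by omega, by have := hL g' hg'; omega, hx⟩
  refine ⟨gen, upto 106 _ Pool.Agent.X34.E.G45_le (gen _ Pool.Agent.X34.E.G45_card
    (fun p hp hp3 _ _ _ => Pool.Agent.X34.E.G45_loc p hp hp3)), fun hall => ?_⟩
  refine upto 44 (range 45) (fun g hg => by have := mem_range.1 hg; omega) (gen _ (card_range 45) ?_)
  intro p hp hp3 h43 hpab hpc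
  exact absurd (hall p hp hp3 h43 hpab) hpc

end Pool.Agent.Results.MP_bf63dc_nt.Iterates106
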