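import Pool.Agent.X31.S3

/-!
# The equation `a p - b q = c` for all constants near the values of polynomials at integers with missing digits

`f` is an arbitrary real polynomial of degree `d ≥ 2` (only the size of the leading coefficient is restricted), and `C` is
the set of the integers with `M` digits in base `β` whose digit at `β ^ j` is in `𝒟 j`, where the sets `𝒟 j` of allowed
digits are arbitrary with at least TWO elements (for instance: the integers with the decimal digits `0` and `1` only; such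
sets can be as thin as `N ^ ε`). For almost all elements `n` of an ARBITRARY dense subset of `C`, ALL integers `c ≠ 0` with
`|c - f(n)| ≤ log ^ D N` and ALL `a, b ≤ log ^ D N` such that `a, b, c` are pairwise coprime and not all odd, the number of
the prime solutions of `a p - b q = c` in every window for `q` of length at least `N / log ^ A N` satisfies the asymptotic
formula of Hardy and Littlewood.

The minimal real additive energy of the values of polynomials at the integers with missing digits is from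
`Pool.Agent.X31.K1` - `K9` (in this run); the theorem on the equation for families of integers `c` with small energy is
`Pool.Agent.TH935.LF.fam_lin` (starting files).
-/

set_option autoImplicit false

namespace Pool.Agent.Results.MP_bf63dc_nt.MissingDigitConstants

open Finset
open scoped Polynomial

/-- the integers `0 ≤ n < b ^ m` whose digit at `b ^ j` in base `b` is in `𝒟 j`, for all `j < m` -/
def Digits (b : ℕ) (𝒟 : ℕ → Finset ℕ) (m : ℕ) : Finset ℕ :=
  (range (b ^ m)).filter (fun n => ∀ j < m, n / b ^ j % b ∈ 𝒟 j)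

/-- `A` is a subset with at least `#(Digits b 𝒟 m) / log ^ D N` elements of the set `Digits b 𝒟 m`, where all sets `𝒟 j`
of allowed digits have at least two elements; `f` is a real polynomial of degree at most `d`, the coefficient of `x ^ d`
is at most `log ^ D N` and at least `N / (b ^ (d m) log ^ D N)` in absolute value, and `|f| ≤ N` on `A`. -/
def Fam (b d D N m : ℕ) (𝒟 : ℕ → Finset ℕ) (f : ℝ[X]) (A : Finset ℕ) : Prop :=
  (∀ j, 𝒟 j ⊆ range b ∧ 2 ≤ (𝒟 j).card) ∧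
  f.natDegree ≤ d ∧ |f.coeff d| ≤ Real.log N ^ D ∧ (N : ℝ) / Real.log N ^ D ≤ |f.coeff d| * (b : ℝ) ^ (d * m) ∧
  A ⊆ Digits b 𝒟 m ∧ ((Digits b 𝒟 m).card : ℝ) / Real.log N ^ D ≤ A.card ∧ ∀ n ∈ A, |f.eval (n : ℝ)| ≤ N

/-- The number of the primes `q` with `y₁ < q ≤ y₂` for which there is a prime `p` with `a p - b q = c`. -/
noncomputable def sols (a b : ℕ) (c : ℤ) (y₁ y₂ : ℕ) : ℕ := by
  classical exact ((Ioc y₁ y₂).filter (fun q : ℕ => q.Prime ∧ ∃ p : ℕ, p.Prime ∧ (a : ℤ) * p - b * q = c)).card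

/-- The twin prime constant `∏_{p > 2} (1 - 1 / (p - 1) ^ 2)` (the infimum of the decreasing partial products). -/
noncomputable def C₂ : ℝ := ⨅ z : ℕ, ∏ p ∈ (Icc 3 z).filter Nat.Prime, (1 - 1 / ((p : ℝ) - 1) ^ 2)

/-- The singular series `2 C₂ ∏_{p ∣ n, p > 2} (p - 1) / (p - 2)`. -/
noncomputable def sing (n : ℕ) : ℝ :=
  2 * C₂ * ∏ p ∈ n.primeFactors.filter (fun p => 2 < p), ((p : ℝ) - 1) / ((p : ℝ) - 2)

/-- For all `a, b ≤ log ^ D N` such that `a, b, c` are pairwise coprime and not all odd, and for every window `(y₁, y₂]`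
with `y₂ ≤ B N`, `c + b y₁ ≥ 0` and `y₂ - y₁ ≥ N / log ^ A N`, the number of the prime solutions of `a p - b q = c` with `q`
in the window agrees with `sing |a b c| (y₂ - y₁) / (a log ^ 2 N)` up to a relative error of at most `ε`. -/
def Holds (ε : ℝ) (A B D N : ℕ) (c : ℤ) : Prop :=
  ∀ a b : ℕ, 1 ≤ a → (a : ℝ) ≤ Real.log N ^ D → 1 ≤ b → (b : ℝ) ≤ Real.log N ^ D →
    Nat.Coprime a b → IsCoprime (a : ℤ) c → IsCoprime (b : ℤ) c → (2 : ℤ) ∣ a * b * c →
    ∀ y₁ y₂ : ℕ, y₁ < y₂ → y₂ ≤ B * N → (N : ℝ) / Real.log N ^ A ≤ (y₂ : ℝ) - y₁ → 0 ≤ c + b * (y₁ : ℤ) →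
      |(sols a b c y₁ y₂ : ℝ) - sing (a * b * c).natAbs * ((y₂ : ℝ) - y₁) / (a * Real.log N ^ 2)| ≤
        ε * (sing (a * b * c).natAbs * ((y₂ : ℝ) - y₁) / (a * Real.log N ^ 2))

lemma sing_eq (n : ℕ) : Pool.Agent.H560R3.GB.sing n = sing n := rfl

lemma sols_eq (a b : ℕ) (c : ℤ) (y₁ y₂ : ℕ) : Pool.Agent.TH935.LF.cn a (b : ℤ) c y₁ y₂ = sols a b c y₁ y₂ := by
  classical
  unfold Pool.Agent.TH935.LF.cn sols
  congr 1
  apply filter_congr
  intro q _
  apply and_congr_right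
  intro _
  apply exists_congr
  intro p
  apply and_congr_right
  intro _
  constructor <;> intro h <;> linarith

lemma holds_of {ε : ℝ} {A B D N : ℕ} {c : ℤ} (h : Pool.Agent.TH935.LF.HW (min ε (1 / 2)) A B D N c) :
    Holds ε A B D N c := by
  intro a b ha haL hb hbL hab hac hbc h2 y₁ y₂ h12 hy2 hw hpos
  have h1 := h a (b : ℤ) ha haL (by exact_mod_cast (by omega : b ≠ 0)) (by rw [Int.natAbs_natCast]; exact hbL)
    (Nat.isCoprime_iff_coprime.2 hab) hac hbc h2 y₁ y₂ h12 hy2 hw (by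
      intro q hq
      rw [mem_Ioc] at hq
      have h3 : (y₁ : ℤ) + 1 ≤ q := by exact_mod_cast hq.1
      have h4 : (1 : ℤ) ≤ b := by exact_mod_cast hb
      nlinarith)
  rw [sols_eq, sing_eq] at h1
  obtain ⟨x, hx⟩ : ∃ x, x = sing ((a : ℤ) * b * c).natAbs * ((y₂ : ℝ) - y₁) / (a * Real.log N ^ 2) := ⟨_, rfl⟩
  rw [← hx] at h1 ⊢
  have h0 : 0 < min ε (1 / 2) ∨ min ε (1 / 2) ≤ 0 := lt_or_ge 0 (min ε (1 / 2))
  have hx0 : 0 ≤ x := by
    rw [hx]
    apply div_nonneg _ (by positivity)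
    apply mul_nonneg
    · rw [← sing_eq]
      exact le_trans zero_le_one (Pool.Agent.W93.GB.one_le_sing _)
    · have : (y₁ : ℝ) ≤ y₂ := by exact_mod_cast h12.le
      linarith
  exact h1.trans (mul_le_mul_of_nonneg_right (min_le_left _ _) hx0)

lemma dat_of {b d D N m : ℕ} {𝒟 : ℕ → Finset ℕ} {f : ℝ[X]} {A : Finset ℕ} (h : Fam b d D N m 𝒟 f A) :
    Pool.Agent.X31.CT.Dat b d D N m 𝒟 f A :=
  ⟨h.1, h.2.1, h.2.2.1, h.2.2.2.1, h.2.2.2.2.1, h.2.2.2.2.2.1, h.2.2.2.2.2.2⟩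

/-- Let `β, d ≥ 2` and `A`, `B`, `D`, `U` be natural numbers and `ε > 0`. For all sufficiently large `N`, every number `M`
of digits, ALL sets `𝒟 j` of allowed digits, ALL real polynomials `f` and every set `𝒜` with `Fam β d D N M 𝒟 f 𝒜`: for all
but at most `#𝒜 / log ^ U N` elements `n` of `𝒜`, ALL integers `c ≠ 0` with `|c - f(n)| ≤ log ^ D N` satisfy
`Holds ε A B D N c`. -/
theorem result (β d : ℕ) (hβ : 2 ≤ β) (hd : 2 ≤ d) (A B D U : ℕ) (ε : ℝ) (hε : 0 < ε) :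
    ∃ N₀ : ℕ, ∀ N : ℕ, N₀ ≤ N → ∀ (M : ℕ) (𝒟 : ℕ → Finset ℕ) (f : ℝ[X]) (𝒜 : Finset ℕ), Fam β d D N M 𝒟 f 𝒜 →
      ∃ E : Finset ℕ, (E.card : ℝ) ≤ 𝒜.card / Real.log N ^ U ∧ ∀ n ∈ 𝒜, n ∉ E →
        ∀ c : ℤ, c ≠ 0 → |(c : ℝ) - f.eval (n : ℝ)| ≤ Real.log N ^ D → Holds ε A B D N c := by
  obtain ⟨N₀, h0⟩ := (Pool.Agent.X31.Sch_dg hβ hd).single D U
    (fun N c => c = 0 ∨ Pool.Agent.TH935.LF.HW (min ε (1 / 2)) A B D N c)
    (fun h _ => Pool.Agent.X31.famO_lin h (min ε (1 / 2)) (lt_min hε (by norm_num)) (min_le_right _ _) A B D)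
  refine ⟨N₀, fun N hN M 𝒟 f 𝒜 hfam => ?_⟩
  obtain ⟨E, hE1, hE2⟩ := h0 N hN 𝒜 (fun n => f.eval (n : ℝ)) ⟨M, 𝒟, f, dat_of hfam, fun _ => rfl⟩
  exact ⟨E, hE1, fun n hn hnE c hc0 hc => holds_of ((hE2 n hn hnE c hc).resolve_left hc0)⟩

end Pool.Agent.Results.MP_bf63dc_nt.MissingDigitConstants
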