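import Pool.Agent.TH899.UG.Qd
import Pool.Agent.X65.Slopes

/-!
MP_bf63dc_nt (Hardy-Littlewood's conjecture for `a p - b q = c`): more than a quarter of all the
equations belonging to given slopes are solved simultaneously near every position.
-/

set_option autoImplicit false

namespace Pool.Agent.Results.MP_bf63dc_nt.SimultaneousSlopes

open Finset Filter
open Pool.Agent.X65.Slopes

/-- There is `c₀ > 0` such that the following holds for all `k ≥ 2` and `T > (4 - c₀) (k - 1)`, in
particular for `T = 4 (k - 1)`. Let `m 0, …, m (T - 1)` be positive integers (the slopes). There is a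
constant `C` such that near every vector of positions `e₀` there are at least `k` slopes (the set
`S`) and positions `e`, with `|e g - e₀ g| ≤ C` on `S`, such that for all distinct `g, h ∈ S` the
equation `(m h / d) p_g - (m g / d) p_h = c`, where `d = gcd (m g, m h)` and
`c = (m h / d) e_g - (m g / d) e_h`, satisfies the hypotheses of the question, and such that all
these equations have at least `x ^ (1 - η)` common solutions `(p_g)` in primes up to `x`, for
arbitrarily large `x`, for every `η > 0`. -/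
theorem result : ∃ c₀ : ℝ, 0 < c₀ ∧ c₀ < 1 ∧ ∀ T k : ℕ, 2 ≤ k → (4 - c₀) * ((k : ℝ) - 1) < T →
    ∀ m : Fin T → ℕ, (∀ i, 1 ≤ m i) →
      ∃ C : ℕ, ∀ e₀ : Fin T → ℤ, ∃ (S : Finset (Fin T)) (e : Fin T → ℤ), k ≤ S.card ∧
        (∀ g ∈ S, |e g - e₀ g| ≤ C) ∧
        (∀ g ∈ S, ∀ h ∈ S, g ≠ h → Adm (co m g h) (co m h g) (cst m e g h)) ∧
        ∀ η : ℝ, 0 < η → ∃ᶠ x : ℝ in atTop, x ^ (1 - η) ≤ ((Sys m e S x).ncard : ℝ) := by
  obtain ⟨c₀, hc₀, hc₁, H⟩ := Pool.Agent.TH899.UG.quarterC
  refine ⟨c₀, hc₀, hc₁, ?_⟩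
  intro T k hk hT m hm
  obtain ⟨j, rfl⟩ : ∃ j : ℕ, k = j + 1 := ⟨k - 1, by omega⟩
  have hjR : (1 : ℝ) ≤ j := by exact_mod_cast (by omega : 1 ≤ j)
  have h1 : (4 - c₀) * ((j : ℕ) : ℝ) < (T : ℝ) := by
    push_cast at hT
    rwa [add_sub_cancel_right] at hT
  have h2 : (0 : ℝ) < T := lt_of_le_of_lt (mul_nonneg (by linarith) (by linarith)) h1
  obtain ⟨K, hK, H⟩ := H T j (by exact_mod_cast h2) h1
  have hE : Eng T (j + 1) := ⟨K, hK, fun a b ha hinj hadm => H a b ha hinj hadm⟩
  exact main (by omega) hE m hm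

end Pool.Agent.Results.MP_bf63dc_nt.SimultaneousSlopes
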